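import Pool.Agent.SY8.Asm
import Pool.Agent.SYE.Fin

/-!
# Eight members: the certificate holds
-/

set_option autoImplicit false

namespace SY8

/-- **Among the labels of eight members one is tight at four members with one sign and at three
with the other sign.** -/
theorem cert : E8K.Cert := SY3.E8.cert_of SYE.refut

end SY8
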