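import Pool.Agent.SY3.FastDef

/-!
# Eight members: the clauses of the exact model and the tightness of the labels
-/

set_option autoImplicit false

namespace SY8

open SY3F

/-- the 5-subsets of `0, …, 7`, 20 bits each -/
def tEL : ℕ := 0x7654376542765417654076532765317653076521765207651076432764317643076421764207641076321763207631076210754327543175430754217542075410753217532075310752107432174320743107421073210654326543165430654216542065410653216532065310652106432164320643106421063210543215432054310542105321043210

/-- element `i` of the 5-subset `b` -/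
def el (b i : ℕ) : ℕ := Nat.land (Nat.shiftRight tEL (Nat.add (Nat.mul 20 b) (Nat.mul 4 i))) 15

/-- the variable: the label of `i, j` has the value `1` (`s = 0`) or `-1` (`s = 1`) at `k` -/
def tv (i j k s : ℕ) : ℕ :=
  Nat.add 9324 (Nat.add (Nat.mul 2 (Nat.add (Nat.mul 64 i) (Nat.add (Nat.mul 8 j) k))) s)

/-- forced tightness -/
def gF (b C i j k r : ℕ) (o : Bool) : List (ℕ × Bool) :=
  [wlf b r o false,
    (tv (el b i) (el b j) (el b k) (bn (Bool.not (xor (tb C k) (tb C i)))), true),
    lt5f (Nat.beq k 0) b 36 false (tb C 0), lt5f (Nat.beq k 1) b 37 false (tb C 1),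
    lt5f (Nat.beq k 2) b 38 false (tb C 2), lt5f (Nat.beq k 3) b 39 false (tb C 3),
    lt5f (Nat.beq k 4) b 40 false (tb C 4)]

/-- not four members on one side and three on the other -/
def gN (i j k1 k2 k3 k4 k5 : ℕ) (s : Bool) : List (ℕ × Bool) :=
  [(tv i j k1 (bn s), false), (tv i j k2 (bn s), false), (tv i j k3 (bn s), false),
    (tv i j k4 (bn (Bool.not s)), false), (tv i j k5 (bn (Bool.not s)), false)]

/-- the clause of a code -/
def gen8 (c : ℕ) : List (ℕ × Bool) :=
  bif Nat.beq (Nat.mod c 8) 0 then
    fl (pa c 0) fun b => fl (pa c 1) fun C => fl (pa c 2) fun i => fl (pa c 3) fun j =>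
    fl (pa c 4) fun r => fl (pa c 5) fun o => fl (pa c 6) fun k =>
    gF b C i j k r (tb o 0)
  else bif Nat.beq (Nat.mod c 8) 6 then
    gN (pa c 0) (pa c 1) (pa c 2) (pa c 3) (pa c 4) (pa c 5) (pa c 6) (tb (pa c 7) 0)
  else gen9f c

/-- `a` is different from `b` -/
def nb (a b : ℕ) : Bool := Bool.not (Nat.beq a b)

/-- validity of a code -/
def valid8 (c : ℕ) : Bool :=
  bif Nat.beq (Nat.mod c 8) 0 then
    fl (pa c 0) fun b => fl (pa c 1) fun C => fl (pa c 2) fun i => fl (pa c 3) fun j =>
    fl (pa c 4) fun r => fl (pa c 5) fun o => fl (pa c 6) fun k =>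
    bif Nat.blt b 56 then bif Nat.blt C 32 then bif Nat.blt i j then bif Nat.blt j 5 then
    bif Nat.blt k 5 then bif nb k i then bif nb k j then bif Nat.blt r 16 then
    bif Nat.beq (by8 tST (tm C i j)) (Nat.add r (Nat.mul 64 (bn (tb o 0)))) then
      xor (tb C i) (tb C j)
    else false else false else false else false else false else false else false else false
    else false
  else bif Nat.beq (Nat.mod c 8) 6 then
    fl (pa c 0) fun i => fl (pa c 1) fun j => fl (pa c 2) fun k1 => fl (pa c 3) fun k2 =>
    fl (pa c 4) fun k3 => fl (pa c 5) fun k4 => fl (pa c 6) fun k5 =>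
    bif Nat.blt i j then bif Nat.blt j 8 then bif Nat.blt k1 k2 then bif Nat.blt k2 k3 then
    bif Nat.blt k3 8 then bif Nat.blt k4 k5 then bif Nat.blt k5 8 then
    bif nb k1 i then bif nb k2 i then bif nb k3 i then bif nb k4 i then bif nb k5 i then
    bif nb k1 j then bif nb k2 j then bif nb k3 j then bif nb k4 j then bif nb k5 j then
    bif nb k1 k4 then bif nb k2 k4 then bif nb k3 k4 then
    bif nb k1 k5 then bif nb k2 k5 then nb k3 k5
    else false else false else false else false else false else false else false else false
    else false else false else false else false else false else false else false else false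
    else false else false else false else false else false else false
  else bif Nat.beq (Nat.mod c 8) 7 then
    bif Nat.blt 1 (pa c 0) then bif Nat.blt (pa c 0) (pa c 1) then Nat.blt (pa c 1) 8
    else false else false
  else bif Nat.beq (Nat.mod c 8) 1 then Nat.blt (Nat.div c 8) 4662
  else bif Nat.beq (Nat.mod c 8) 2 then
    bif Nat.blt (pa c 0) 56 then valid9f c else false
  else bif Nat.beq (Nat.mod c 8) 3 then
    bif Nat.blt (pa c 0) 56 then valid9f c else false
  else valid9f c

end SY8
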