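import Pool.Agent.C1S.Cl
import Pool.Agent.SY3.Fast
import Pool.Agent.SY8.Def

/-!
# Eight members: soundness of the clauses
-/

set_option autoImplicit false

namespace SY3.E8

open BS9 N8S SY8 Finset

/-- the labels of the pairs `i < j` -/
def Lab (w : ℕ → Fin 4 → ℝ) (f : ℕ → ℕ → Fin 4 → ℝ) : Prop :=
  ∀ i j, i < j → j < 8 → C1S.dot (f i j) (w i) = 1 ∧ C1S.dot (f i j) (w j) = -1 ∧
    ∀ k < 8, |C1S.dot (f i j) (w k)| ≤ 1

/-- the members `2, …, 7` are sorted around the edge `0, 1` -/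
def Sorted8 (w : ℕ → Fin 4 → ℝ) : Prop :=
  ∀ i j : ℕ, 2 ≤ i → i < j → j < 8 → 0 ≤ D4 (w 0) (w 1) (w i) (w j)

/-- the value `1` or `-1` -/
def vs (s : ℕ) : ℝ := if s = 0 then 1 else -1

/-- no label is tight at four members on one side and at three on the other -/
def No43 (w : ℕ → Fin 4 → ℝ) (f : ℕ → ℕ → Fin 4 → ℝ) : Prop :=
  ∀ i j k1 k2 k3 k4 k5 s : ℕ, i < j → j < 8 → k1 < k2 → k2 < k3 → k3 < 8 → k4 < k5 → k5 < 8 →
    [i, j, k1, k2, k3, k4, k5].Nodup → s < 2 →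
    C1S.dot (f i j) (w k1) = vs s → C1S.dot (f i j) (w k2) = vs s →
    C1S.dot (f i j) (w k3) = vs s → C1S.dot (f i j) (w k4) = - vs s →
    C1S.dot (f i j) (w k5) = - vs s → False

/-- the value of a variable -/
noncomputable def val8 (w : ℕ → Fin 4 → ℝ) (f : ℕ → ℕ → Fin 4 → ℝ) (x : ℕ) : Bool :=
  if x < 9324 then val w x else
    decide (C1S.dot (f ((x - 9324) / 128) ((x - 9324) / 16 % 8)) (w ((x - 9324) / 2 % 8)) =
      vs ((x - 9324) % 2))

/-- the clause is satisfied -/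
def Sat8 (w : ℕ → Fin 4 → ℝ) (f : ℕ → ℕ → Fin 4 → ℝ) (l : List (ℕ × Bool)) : Prop :=
  ∃ p ∈ l, val8 w f p.1 = p.2

theorem lift {w : ℕ → Fin 4 → ℝ} {f : ℕ → ℕ → Fin 4 → ℝ} {l : List (ℕ × Bool)} (h : Sat w l)
    (hb : ∀ p ∈ l, p.1 < 9324) : Sat8 w f l := by
  obtain ⟨p, hp, h1⟩ := h
  refine ⟨p, hp, ?_⟩
  unfold val8
  rw [if_pos (hb p hp)]
  exact h1

theorem val8_tv (w : ℕ → Fin 4 → ℝ) (f : ℕ → ℕ → Fin 4 → ℝ) {i j k s : ℕ} (hj : j < 8)
    (hk : k < 8) (hs : s < 2) :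
    val8 w f (tv i j k s) = decide (C1S.dot (f i j) (w k) = vs s) := by
  have e : tv i j k s = 9324 + (2 * (64 * i + (8 * j + k)) + s) := rfl
  unfold val8
  rw [e, if_neg (by omega)]
  have h1 : (9324 + (2 * (64 * i + (8 * j + k)) + s) - 9324) / 128 = i := by omega
  have h2 : (9324 + (2 * (64 * i + (8 * j + k)) + s) - 9324) / 16 % 8 = j := by omega
  have h3 : (9324 + (2 * (64 * i + (8 * j + k)) + s) - 9324) / 2 % 8 = k := by omega
  have h4 : (9324 + (2 * (64 * i + (8 * j + k)) + s) - 9324) % 2 = s := by omega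
  rw [h1, h2, h3, h4]

theorem key_lt {b r : ℕ} (hb : b < 126) (hr : r < 41) (s : Bool) : key b r s < 9324 := by
  unfold key
  cases h : Nat.blt r 36 with
  | true =>
    rw [cond_true]
    have := blt_lt h
    have := bn_lt s
    omega
  | false =>
    rw [cond_false]
    have h1 : 36 ≤ r := by
      by_contra hc
      rw [lt_blt (not_le.1 hc)] at h
      cases h
    have h2 := (T4_xid b hb (r - 36) (by omega)).1
    have h3 := bn_lt (xor s (tb r 0))
    omega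

theorem xkey_lt {a k l : ℕ} (ha : a < 84) (hkl : k < l) (hl : l < 6) (s : Bool) :
    xkey a k l s < 9324 := by
  unfold xkey
  have h2 := (T4_xid2 a ha l hl k hkl).1
  have h3 := bn_lt s
  omega

theorem wl_lt {b r : ℕ} (hb : b < 126) (hr : r < 41) (o s : Bool) : (wl b r o s).1 < 9324 :=
  key_lt hb hr _

theorem sl_lt {b r : ℕ} (hb : b < 126) (hr : r < 41) (o s : Bool) : (sl b r o s).1 < 9324 :=
  key_lt hb hr _

theorem lt5_lt {b r : ℕ} (hb : b < 126) (hr : r < 41) (st o s : Bool) :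
    (lt5 st b r o s).1 < 9324 := by
  cases st
  · exact wl_lt hb hr o s
  · exact sl_lt hb hr o s

theorem lt6_lt {a k l : ℕ} (ha : a < 84) (hkl : k < l) (hl : l < 6) (st s : Bool) :
    (lt6 st a k l s).1 < 9324 := by
  cases st
  · exact xkey_lt ha hkl hl _
  · exact xkey_lt ha hkl hl _

theorem pre_lt {b C : ℕ} (hb : b < 126) : ∀ p ∈ pre b C, p.1 < 9324 := by
  intro p hp
  unfold pre at hp
  simp only [List.mem_cons, List.not_mem_nil, or_false] at hp
  rcases hp with rfl | rfl | rfl | rfl | rfl <;> exact wl_lt hb (by norm_num) _ _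

theorem hEL : ∀ b < 56, ∀ i < 5, el b i = dh (T5.getD b 0) i ∧ el b i < 8 := by decide +kernel

theorem T5_lt8 : ∀ b < 56, ∀ k < 5, dh (T5.getD b 0) k < 8 := by decide +kernel

theorem T5_inc : ∀ b < 56, ∀ j < 5, ∀ i < j, dh (T5.getD b 0) i < dh (T5.getD b 0) j := by
  decide +kernel

/-- forced tightness, the inequality -/
theorem forced {c g : Fin 5 → ℝ} {C : ℕ} {i j k : Fin 5} (hij : i ≠ j) (hki : k ≠ i) (hkj : k ≠ j)
    (hC : ∀ m : Fin 5, sb (tb C m) * c m = |c m|) (hne : tb C i ≠ tb C j)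
    (hk : c k ≠ 0) (hg : ∑ m, c m * g m = 0) (hgi : g i = 1) (hgj : g j = -1)
    (hg1 : ∀ m, |g m| ≤ 1) (hrow : ∑ m, |c m| ≤ 2 * (|c i| + |c j|)) :
    g k = if tb C k = tb C i then -1 else 1 := by
  classical
  have hs2 : ∀ b : Bool, sb b * sb b = 1 := by intro b; cases b <;> simp [sb]
  have hci : ∀ m : Fin 5, c m = sb (tb C m) * |c m| := by
    intro m
    rw [← hC m, ← mul_assoc, hs2, one_mul]
  -- `-σ_i ∑_{m ≠ i, j} c_m g_m = |c_i| + |c_j|`
  have hsj : sb (tb C j) = - sb (tb C i) := by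
    cases h1 : tb C i <;> cases h2 : tb C j <;> rw [h1, h2] at hne <;> simp [sb] at hne ⊢
  have hsum : ∀ t : Fin 5 → ℝ, ∑ m, t m = t i + t j + t k +
      ∑ m ∈ ((univ.erase i).erase j).erase k, t m := by
    intro t
    have h1 : i ∈ (univ : Finset (Fin 5)) := mem_univ _
    have h2 : j ∈ univ.erase i := mem_erase.2 ⟨hij.symm, mem_univ _⟩
    have h3 : k ∈ (univ.erase i).erase j := mem_erase.2 ⟨hkj, mem_erase.2 ⟨hki, mem_univ _⟩⟩
    rw [← Finset.add_sum_erase _ t h1, ← Finset.add_sum_erase _ t h2,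
      ← Finset.add_sum_erase _ t h3]
    ring
  rw [hsum] at hg hrow
  set S := ((univ.erase i).erase j).erase k with hS
  have hle : - sb (tb C i) * ∑ m ∈ S, c m * g m ≤ ∑ m ∈ S, |c m| := by
    have h1 : |- sb (tb C i) * ∑ m ∈ S, c m * g m| ≤ ∑ m ∈ S, |c m| := by
      rw [abs_mul]
      have h2 : |-sb (tb C i)| = 1 := by cases tb C i <;> simp [sb]
      rw [h2, one_mul]
      refine (Finset.abs_sum_le_sum_abs _ _).trans (Finset.sum_le_sum fun m _ => ?_)
      rw [abs_mul]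
      exact mul_le_of_le_one_right (abs_nonneg _) (hg1 m)
    exact (le_abs_self _).trans h1
  rw [hgi, hgj] at hg
  have e1 : sb (tb C i) * c i = |c i| := hC i
  have e2 : sb (tb C i) * c j = - |c j| := by
    have := hC j
    rw [hsj] at this
    linarith
  have e3 : |c i| + |c j| = - sb (tb C i) * (c k * g k) - sb (tb C i) * ∑ m ∈ S, c m * g m := by
    have h1 : sb (tb C i) * (c i * 1 + c j * (-1) + c k * g k + ∑ m ∈ S, c m * g m) = 0 := by
      rw [hg, mul_zero]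
    linarith
  have e4 : |c k| ≤ - sb (tb C i) * (c k * g k) := by linarith
  have hck : 0 < |c k| := abs_pos.2 hk
  rw [hci k] at e4
  have e5 : |(sb (tb C k) * |c k|)| = |c k| := by
    rw [← hci k]
  rw [e5] at e4
  have e6 : 1 ≤ - sb (tb C i) * sb (tb C k) * g k := by
    have : |c k| * 1 ≤ |c k| * (- sb (tb C i) * sb (tb C k) * g k) := by linarith
    exact le_of_mul_le_mul_left this hck
  have hgk := abs_le.1 (hg1 k)
  cases h1 : tb C i <;> cases h2 : tb C k <;> rw [h1, h2] at e6 <;> simp [sb] at e6 ⊢ <;>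
    linarith [hgk.1, hgk.2]

/-- the five conditions of a forced clause -/
theorem preF_fail {w : ℕ → Fin 4 → ℝ} {f : ℕ → ℕ → Fin 4 → ℝ} {b C k : ℕ} (hb : b < 126)
    (h : ∀ m : Fin 5, val8 w f (lt5 (Nat.beq k m) b (36 + m) false (tb C m)).1 ≠
      (lt5 (Nat.beq k m) b (36 + m) false (tb C m)).2) (m : Fin 5) :
    0 ≤ sb (tb C m) * cf (vh w (T5.getD b 0)) m ∧
      (k = m → 0 < sb (tb C m) * cf (vh w (T5.getD b 0)) m) := by
  have h1 := h m
  unfold val8 at h1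
  rw [if_pos (lt5_lt hb (by omega) _ _ _)] at h1
  obtain ⟨h2, h3⟩ := lt5_fail hb (by omega) h1
  rw [Q_unit w m.2] at h2 h3
  refine ⟨h2, fun hkm => h3 ?_⟩
  rw [hkm]
  exact beq_self _

theorem dot_rel {v : ℕ → Fin 4 → ℝ} (g : Fin 4 → ℝ) :
    ∑ m : Fin 5, cf v m * C1S.dot g (v m) = 0 := by
  have h1 : ∀ m : Fin 5, cf v m * C1S.dot g (v m) = ∑ a, g a * (cf v m * v m a) := by
    intro m
    unfold C1S.dot
    rw [Finset.mul_sum]
    exact Finset.sum_congr rfl fun a _ => by ring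
  rw [Finset.sum_congr rfl fun m _ => h1 m, Finset.sum_comm]
  refine Finset.sum_eq_zero fun a _ => ?_
  rw [← Finset.mul_sum, cf_rel v a, mul_zero]

/-- forced tightness -/
theorem satF {w : ℕ → Fin 4 → ℝ} {f : ℕ → ℕ → Fin 4 → ℝ} (h : Hyp 8 w) (hL : Lab w f)
    {b C i j k r : ℕ} {o : Bool} (hb : b < 56) (hij : i < j) (hj : j < 5) (hk : k < 5)
    (hki : k ≠ i) (hkj : k ≠ j) (hr : r < 16) (hP : oP r o = tm C i j)
    (hM : oM r o = Nat.xor (tm C i j) 31) (hc : tb C i ≠ tb C j) :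
    Sat8 w f (gF b C i j k r o) := by
  by_contra hcon
  unfold Sat8 at hcon
  push Not at hcon
  have hb' : b < 126 := by omega
  have hi : i < 5 := by omega
  have hr' : r < 41 := by omega
  have hw : SY3F.wlf b r o false = wl b r o false := wlf_eq hb' hr' _ _
  have h0 := hcon (wl b r o false) (by unfold gF; rw [hw]; simp)
  have ht := hcon (tv (el b i) (el b j) (el b k)
    (SY3F.bn (Bool.not (xor (SY3F.tb C k) (SY3F.tb C i)))), true) (by unfold gF; simp)
  have hm : ∀ m : Fin 5, val8 w f (lt5 (Nat.beq k m) b (36 + m) false (tb C m)).1 ≠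
      (lt5 (Nat.beq k m) b (36 + m) false (tb C m)).2 := by
    intro m
    refine hcon _ ?_
    rw [← lt5f_eq hb' (by omega)]
    unfold gF
    fin_cases m <;> simp [f_tb]
  have hC := fun m => (preF_fail hb' hm m).1
  have hkk := (preF_fail hb' hm ⟨k, hk⟩).2 rfl
  obtain ⟨habs, -, -, -⟩ := facts h (T5_lt8) (by norm_num) hb hC
  unfold val8 at h0
  rw [if_pos (wl_lt hb' hr' _ _)] at h0
  have h1 := wl_fail hb' hr' h0
  rw [sb_false, one_mul, Q_tm hi hj hP hM habs] at h1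
  have h2 := sum_ite (t := fun k => |cf (vh w (T5.getD b 0)) k|) ⟨i, hi⟩ ⟨j, hj⟩
    (fun h => (ne_of_lt hij) (by simpa using h))
  simp only [] at h2
  rw [h2] at h1
  obtain ⟨ei, li⟩ := hEL b hb i hi
  obtain ⟨ej, lj⟩ := hEL b hb j hj
  obtain ⟨ek, lk⟩ := hEL b hb k hk
  rw [ei, ej, ek] at ht
  rw [ei] at li
  rw [ej] at lj
  rw [ek] at lk
  have hlt := T5_inc b hb j hj i hij
  obtain ⟨g1, g2, g3⟩ := hL _ _ hlt lj
  set g := f (dh (T5.getD b 0) i) (dh (T5.getD b 0) j) with hg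
  have hF := forced (c := fun m : Fin 5 => cf (vh w (T5.getD b 0)) m)
    (g := fun m : Fin 5 => C1S.dot g (vh w (T5.getD b 0) m)) (C := C) (i := ⟨i, hi⟩) (j := ⟨j, hj⟩)
    (k := ⟨k, hk⟩) (fun h => (ne_of_lt hij) (by simpa using h)) (fun h => hki (by simpa using h))
    (fun h => hkj (by simpa using h)) habs hc (fun h0 => by
      have h5 := hkk
      rw [h0, mul_zero] at h5
      exact lt_irrefl _ h5) (dot_rel g) g1 g2 (fun m => g3 _ (T5_lt8 b hb m m.2)) (by linarith)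
  have hs : SY3F.bn (Bool.not (xor (SY3F.tb C k) (SY3F.tb C i))) < 2 := by
    cases (Bool.not (xor (SY3F.tb C k) (SY3F.tb C i))) <;> decide
  rw [val8_tv w f lj lk hs] at ht
  have ht' := dec_true ht
  refine ht' ?_
  have hF' : C1S.dot g (w (dh (T5.getD b 0) k)) = if tb C k = tb C i then -1 else 1 := hF
  rw [hF', f_tb]
  cases h3 : tb C k <;> cases h4 : tb C i <;> simp [vs, SY3F.bn]

/-- not four members on one side and three on the other -/
theorem satN {w : ℕ → Fin 4 → ℝ} {f : ℕ → ℕ → Fin 4 → ℝ} (hN : No43 w f)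
    {i j k1 k2 k3 k4 k5 : ℕ} {s : Bool} (hij : i < j) (hj : j < 8) (h12 : k1 < k2) (h23 : k2 < k3)
    (h3 : k3 < 8) (h45 : k4 < k5) (h5 : k5 < 8) (hd : [i, j, k1, k2, k3, k4, k5].Nodup) :
    Sat8 w f (gN i j k1 k2 k3 k4 k5 s) := by
  by_contra hcon
  unfold Sat8 at hcon
  push Not at hcon
  have hs : SY3F.bn s < 2 := by cases s <;> decide
  have hs' : SY3F.bn (Bool.not s) < 2 := by cases s <;> decide
  have a1 := hcon (tv i j k1 (SY3F.bn s), false) (by unfold gN; simp)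
  have a2 := hcon (tv i j k2 (SY3F.bn s), false) (by unfold gN; simp)
  have a3 := hcon (tv i j k3 (SY3F.bn s), false) (by unfold gN; simp)
  have a4 := hcon (tv i j k4 (SY3F.bn (Bool.not s)), false) (by unfold gN; simp)
  have a5 := hcon (tv i j k5 (SY3F.bn (Bool.not s)), false) (by unfold gN; simp)
  rw [val8_tv w f hj (by omega) hs] at a1 a2 a3
  rw [val8_tv w f hj (by omega) hs'] at a4 a5
  have hv : vs (SY3F.bn (Bool.not s)) = - vs (SY3F.bn s) := by
    cases s <;> simp [vs, SY3F.bn]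
  have b4 := dec_false a4
  have b5 := dec_false a5
  rw [hv] at b4 b5
  exact hN i j k1 k2 k3 k4 k5 (SY3F.bn s) hij hj h12 h23 h3 h45 h5 hd hs (dec_false a1)
    (dec_false a2) (dec_false a3) b4 b5

theorem sat7' {w : ℕ → Fin 4 → ℝ} (h : Sorted8 w) {i j : ℕ} (hi : 2 ≤ i) (hij : i < j)
    (hj : j < 8) : Sat w (g7 i j) := by
  refine ⟨(2 * r4 0 1 i j + 1, false), by simp [g7], ?_⟩
  obtain ⟨h1, h2, h3, h4, h5⟩ := T4_edge j (by omega) i hij hi
  simp only
  have e : 2 * r4 0 1 i j + 1 = 2 * r4 0 1 i j + bn true := rfl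
  rw [e, val_var]
  apply decide_eq_false
  unfold qv
  rw [if_pos h1]
  unfold XH vh
  rw [h2, h3, h4, h5, sb_true]
  have := h i j hi hij hj
  linarith

theorem g1_lt {x : ℕ} (hx : x < 4662) : ∀ p ∈ g1 x, p.1 < 9324 := by
  intro p hp
  unfold g1 at hp
  simp only [List.mem_cons, List.not_mem_nil, or_false] at hp
  rcases hp with rfl | rfl <;> simp only <;> omega

theorem g2_lt {b i j : ℕ} (hb : b < 126) (hij : i < j) (hj : j < 5) :
    ∀ p ∈ g2 b i j, p.1 < 9324 := by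
  intro p hp
  unfold g2 at hp
  simp only [List.mem_cons, List.not_mem_nil, or_false] at hp
  rcases hp with rfl | rfl | rfl | rfl <;> exact wl_lt hb (by omega) _ _

theorem g3_lt {b C r : ℕ} {o : Bool} (hb : b < 126) (hr : r < 41) :
    ∀ p ∈ g3 b C r o, p.1 < 9324 := by
  intro p hp
  unfold g3 at hp
  rcases List.mem_cons.1 hp with rfl | hp
  · exact sl_lt hb hr _ _
  · exact pre_lt hb p hp

theorem g4_lt {b C r : ℕ} {o : Bool} (hb : b < 126) (hr : r < 41) :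
    ∀ p ∈ g4 b C r o, p.1 < 9324 := by
  intro p hp
  unfold g4 at hp
  rcases List.mem_cons.1 hp with rfl | hp
  · exact wl_lt hb hr _ _
  · exact pre_lt hb p hp

theorem g5_lt {b r1 r2 r3 t : ℕ} {s1 s2 s3 sg : Bool} (hb : b < 126) (h1 : r1 < 41)
    (h2 : r2 < 41) (h3 : r3 < 41) : ∀ p ∈ g5 b r1 s1 r2 s2 r3 s3 t sg, p.1 < 9324 := by
  intro p hp
  unfold g5 at hp
  simp only [List.mem_cons, List.not_mem_nil, or_false] at hp
  rcases hp with rfl | rfl | rfl
  · exact lt5_lt hb h1 _ _ _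
  · exact lt5_lt hb h2 _ _ _
  · exact lt5_lt hb h3 _ _ _

theorem g6_lt {a p q r rp rq rr t : ℕ} {op oq oR s1 s2 s3 sg : Bool} (ha : a < 84) (hpq : p < q)
    (hqr : q < r) (hr : r < 6) (h1 : rp < 41) (h2 : rq < 41) (h3 : rr < 41) :
    ∀ x ∈ g6 a p q r rp rq rr op oq oR s1 s2 s3 t sg, x.1 < 9324 := by
  have hB : ∀ p < 6, bid (A6.getD a 0) p < 126 := fun p hp => (T5_bid a ha p hp).1
  intro x hx
  unfold g6 at hx
  simp only [List.mem_cons, List.not_mem_nil, or_false] at hx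
  rcases hx with rfl | rfl | rfl | rfl | rfl | rfl
  · exact lt6_lt ha hqr hr _ _
  · exact lt5_lt (hB p (by omega)) h1 _ _ _
  · exact lt6_lt ha (hpq.trans hqr) hr _ _
  · exact lt5_lt (hB q (by omega)) h2 _ _ _
  · exact lt6_lt ha hpq (by omega) _ _
  · exact lt5_lt (hB r hr) h3 _ _ _

theorem g7_lt {i j : ℕ} (hi : 2 ≤ i) (hij : i < j) (hj : j < 8) : ∀ p ∈ g7 i j, p.1 < 9324 := by
  intro p hp
  unfold g7 at hp
  simp only [List.mem_cons, List.not_mem_nil, or_false] at hp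
  subst hp
  have := (T4_edge j (by omega) i hij hi).1
  simp only
  omega

theorem nb_ne {a b : ℕ} (h : nb a b = true) : a ≠ b := by
  unfold nb at h
  cases h1 : Nat.beq a b with
  | true => rw [h1] at h; cases h
  | false => exact Nat.ne_of_beq_eq_false h1

/-- **Soundness of the clauses.** -/
theorem gen8_sound {w : ℕ → Fin 4 → ℝ} {f : ℕ → ℕ → Fin 4 → ℝ} (h : Hyp 8 w) (h9 : Sorted8 w)
    (hL : Lab w f) (hN : No43 w f) (c : ℕ) (hc : valid8 c = true) : Sat8 w f (gen8 c) := by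
  unfold valid8 at hc
  unfold gen8
  simp only [fl_eq, f_tb, f_bn, f_pa, f_tm] at hc ⊢
  cases f0 : Nat.beq (Nat.mod c 8) 0 with
  | true =>
    rw [f0, cond_true] at hc
    rw [cond_true]
    obtain ⟨k1, hc⟩ := bd hc
    obtain ⟨k2, hc⟩ := bd hc
    obtain ⟨k3, hc⟩ := bd hc
    obtain ⟨k4, hc⟩ := bd hc
    obtain ⟨k5, hc⟩ := bd hc
    obtain ⟨k6, hc⟩ := bd hc
    obtain ⟨k7, hc⟩ := bd hc
    obtain ⟨k8, hc⟩ := bd hc
    obtain ⟨k9, hc⟩ := bd hc
    have hj := blt_lt k4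
    have hi : pa c 2 < 5 := (blt_lt k3).trans hj
    obtain ⟨hP, hM⟩ := hST _ (tm_lt (blt_lt k2) hi hj) _ (blt_lt k8)
      (tb (pa c 5) 0) (Nat.eq_of_beq_eq_true k9)
    refine satF h hL (blt_lt k1) (blt_lt k3) hj (blt_lt k5) (nb_ne k6) (nb_ne k7) (blt_lt k8)
      hP hM fun he => ?_
    rw [he, Bool.xor_self] at hc
    cases hc
  | false =>
  rw [f0, cond_false] at hc
  rw [cond_false]
  cases f6 : Nat.beq (Nat.mod c 8) 6 with
  | true =>
    rw [f6, cond_true] at hc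
    rw [cond_true]
    obtain ⟨k1, hc⟩ := bd hc
    obtain ⟨k2, hc⟩ := bd hc
    obtain ⟨k3, hc⟩ := bd hc
    obtain ⟨k4, hc⟩ := bd hc
    obtain ⟨k5, hc⟩ := bd hc
    obtain ⟨k6, hc⟩ := bd hc
    obtain ⟨k7, hc⟩ := bd hc
    obtain ⟨a1, hc⟩ := bd hc
    obtain ⟨a2, hc⟩ := bd hc
    obtain ⟨a3, hc⟩ := bd hc
    obtain ⟨a4, hc⟩ := bd hc
    obtain ⟨a5, hc⟩ := bd hc
    obtain ⟨b1, hc⟩ := bd hc
    obtain ⟨b2, hc⟩ := bd hc
    obtain ⟨b3, hc⟩ := bd hc
    obtain ⟨b4, hc⟩ := bd hc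
    obtain ⟨b5, hc⟩ := bd hc
    obtain ⟨c1, hc⟩ := bd hc
    obtain ⟨c2, hc⟩ := bd hc
    obtain ⟨c3, hc⟩ := bd hc
    obtain ⟨c4, hc⟩ := bd hc
    obtain ⟨c5, c6⟩ := bd hc
    refine satN hN (blt_lt k1) (blt_lt k2) (blt_lt k3) (blt_lt k4) (blt_lt k5) (blt_lt k6)
      (blt_lt k7) ?_
    have d1 := nb_ne a1
    have d2 := nb_ne a2
    have d3 := nb_ne a3
    have d4 := nb_ne a4
    have d5 := nb_ne a5
    have e1 := nb_ne b1
    have e2 := nb_ne b2
    have e3 := nb_ne b3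
    have e4 := nb_ne b4
    have e5 := nb_ne b5
    have i1 := nb_ne c1
    have i2 := nb_ne c2
    have i3 := nb_ne c3
    have i4 := nb_ne c4
    have i5 := nb_ne c5
    have i6 := nb_ne c6
    have l1 := blt_lt k1
    have l2 := blt_lt k3
    have l3 := blt_lt k4
    have l4 := blt_lt k6
    simp only [List.nodup_cons, List.mem_cons, List.not_mem_nil, or_false, not_or,
      List.nodup_nil, and_true, not_false_eq_true]
    omega
  | false =>
  rw [f6, cond_false] at hc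
  rw [cond_false]
  unfold SY3F.gen9f
  simp only [fl_eq, f_tb, f_pa, f_g7, f_g1]
  cases f7 : Nat.beq (Nat.mod c 8) 7 with
  | true =>
    rw [f7, cond_true] at hc
    obtain ⟨k2, hc⟩ := bd hc
    obtain ⟨k3, k4⟩ := bd hc
    have e7 := Nat.eq_of_beq_eq_true f7
    rw [e7]
    have h5 : Nat.beq 7 5 = false := rfl
    have h4 : Nat.beq 7 4 = false := rfl
    have h3 : Nat.beq 7 3 = false := rfl
    have h2 : Nat.beq 7 2 = false := rfl
    have h1 : Nat.beq 7 1 = false := rfl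
    rw [h5, h4, h3, h2, h1, cond_false, cond_false, cond_false, cond_false, cond_false]
    exact lift (sat7' h9 (blt_lt k2) (blt_lt k3) (blt_lt k4))
      (g7_lt (blt_lt k2) (blt_lt k3) (blt_lt k4))
  | false =>
  rw [f7, cond_false] at hc
  cases f1 : Nat.beq (Nat.mod c 8) 1 with
  | true =>
    rw [f1, cond_true] at hc
    have e7 := Nat.eq_of_beq_eq_true f1
    rw [e7]
    have h5 : Nat.beq 1 5 = false := rfl
    have h4 : Nat.beq 1 4 = false := rfl
    have h3 : Nat.beq 1 3 = false := rfl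
    have h2 : Nat.beq 1 2 = false := rfl
    have h1 : Nat.beq 1 1 = true := rfl
    rw [h5, h4, h3, h2, cond_false, cond_false, cond_false, cond_false, cond_true]
    exact lift (sat1 w _) (g1_lt (blt_lt hc))
  | false =>
  rw [f1, cond_false] at hc
  cases f2 : Nat.beq (Nat.mod c 8) 2 with
  | true =>
    rw [f2, cond_true] at hc
    obtain ⟨k56, hc⟩ := bd hc
    have e7 := Nat.eq_of_beq_eq_true f2
    unfold SY3F.valid9f at hc
    simp only [fl_eq, f_tb, f_bn, f_pa, f_tm] at hc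
    rw [e7] at hc ⊢
    have h5 : Nat.beq 2 5 = false := rfl
    have h4 : Nat.beq 2 4 = false := rfl
    have h3 : Nat.beq 2 3 = false := rfl
    have h2 : Nat.beq 2 2 = true := rfl
    rw [h5, h4, h3, h2, cond_false, cond_false, cond_false, cond_true] at hc
    rw [h5, h4, h3, cond_false, cond_false, cond_false, cond_true]
    obtain ⟨k1, hc⟩ := bd hc
    obtain ⟨k2, k3⟩ := bd hc
    rw [g2f_eq (blt_lt k1) (blt_lt k2) (blt_lt k3)]
    exact lift (sat2 h T5_lt8 (by norm_num) (blt_lt k56) (blt_lt k2) (blt_lt k3))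
      (g2_lt (blt_lt k1) (blt_lt k2) (blt_lt k3))
  | false =>
  rw [f2, cond_false] at hc
  cases f3 : Nat.beq (Nat.mod c 8) 3 with
  | true =>
    rw [f3, cond_true] at hc
    obtain ⟨k56, hc⟩ := bd hc
    have hb56 := blt_lt k56
    have e7 := Nat.eq_of_beq_eq_true f3
    unfold SY3F.valid9f at hc
    simp only [fl_eq, f_tb, f_bn, f_pa, f_tm] at hc
    rw [e7] at hc ⊢
    have h5 : Nat.beq 3 5 = false := rfl
    have h4 : Nat.beq 3 4 = false := rfl
    have h3 : Nat.beq 3 3 = true := rfl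
    rw [h5, h4, h3, cond_false, cond_false, cond_true] at hc
    rw [h5, h4, cond_false, cond_false, cond_true]
    obtain ⟨k1, hc⟩ := bd hc
    have hb := blt_lt k1
    cases i7 : Nat.beq (pa c 2) 7 with
    | true =>
      rw [i7, cond_true] at hc
      rw [cond_true, pref_eq hb]
      refine lift (satA h T5_lt8 (by norm_num) hb56 ?_) (pre_lt hb)
      cases c0 : Nat.beq (pa c 1) 0 with
      | true => exact Or.inl (Nat.eq_of_beq_eq_true c0)
      | false => rw [c0, cond_false] at hc; exact Or.inr (Nat.eq_of_beq_eq_true hc)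
    | false =>
      rw [i7, cond_false] at hc
      rw [cond_false]
      obtain ⟨k2, hc⟩ := bd hc
      obtain ⟨k3, hc⟩ := bd hc
      obtain ⟨k4, hc⟩ := bd hc
      obtain ⟨k5, hc⟩ := bd hc
      obtain ⟨k6, hc⟩ := bd hc
      obtain ⟨hP, hM⟩ := hST _ (tm_lt (blt_lt k2) (blt_lt k3) (blt_lt k4)) _ (blt_lt k5)
        (tb (pa c 5) 0) (Nat.eq_of_beq_eq_true k6)
      have hr : pa c 4 < 41 := (blt_lt k5).trans (by norm_num)
      rw [pref_eq hb]
      cases ij : Nat.beq (pa c 2) (pa c 3) with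
      | true =>
        rw [cond_true, wlf_eq hb hr]
        have e := Nat.eq_of_beq_eq_true ij
        rw [← e] at hP hM
        exact lift (sat4 h T5_lt8 (by norm_num) hb56 (blt_lt k3) (blt_lt k5) hP hM)
          (g4_lt hb hr)
      | false =>
        rw [ij, cond_false] at hc
        rw [cond_false, slf_eq hb hr]
        refine lift (sat3 h T5_lt8 (by norm_num) hb56 (blt_lt k3) (blt_lt k4)
          (Nat.ne_of_beq_eq_false ij) (blt_lt k5) hP hM fun h9 => ?_) (g3_lt hb hr)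
        rw [h9, Bool.xor_self] at hc
        cases hc
  | false =>
  rw [f3, cond_false] at hc
  unfold SY3F.valid9f at hc
  simp only [fl_eq, f_tb, f_bn, f_pa, f_tm] at hc
  cases f5 : Nat.beq (Nat.mod c 8) 5 with
  | true =>
    rw [f5, cond_true] at hc
    rw [cond_true]
    obtain ⟨k1, hc⟩ := bd hc
    obtain ⟨k2, hc⟩ := bd hc
    obtain ⟨k3, hc⟩ := bd hc
    obtain ⟨k4, hc⟩ := bd hc
    obtain ⟨k5, hc⟩ := bd hc
    obtain ⟨k6, hc⟩ := bd hc
    obtain ⟨k7, hc⟩ := bd hc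
    obtain ⟨k8, hc⟩ := bd hc
    obtain ⟨k9, hc⟩ := bd hc
    obtain ⟨k10, k11⟩ := bd hc
    have e9 := Nat.eq_of_beq_eq_true k9
    have e10 := Nat.eq_of_beq_eq_true k10
    have e11 := Nat.eq_of_beq_eq_true k11
    have lr : pa c 3 < 6 := blt_lt k4
    have lq : pa c 2 < 6 := (blt_lt k3).trans lr
    have lp : pa c 1 < 6 := (blt_lt k2).trans lq
    obtain ⟨t1, t2, t3⟩ := hR (blt_lt k5) (blt_lt k6) (blt_lt k7) lp
      (by rw [e9]; exact pa_lt c 6)
    obtain ⟨u1, u2, u3⟩ := hR (blt_lt k5) (blt_lt k6) (blt_lt k7) lq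
      (by rw [e10]; exact pa_lt c 7)
    obtain ⟨v1, v2, v3⟩ := hR (blt_lt k5) (blt_lt k6) (blt_lt k7) lr
      (by rw [e11]; exact pa_lt c 8)
    rw [e9] at t1 t2 t3
    rw [e10] at u1 u2 u3
    rw [e11] at v1 v2 v3
    rw [g6f_eq (blt_lt k1) (blt_lt k2) (blt_lt k3) lr t3 u3 v3]
    exact lift (sat6 (blt_lt k1) (blt_lt k2) (blt_lt k3) lr (blt_lt k5) (blt_lt k6) t3 u3 v3
      (blt_lt k8) t1 t2 u1 u2 v1 v2) (g6_lt (blt_lt k1) (blt_lt k2) (blt_lt k3) lr t3 u3 v3)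
  | false =>
  rw [f5, cond_false] at hc
  rw [cond_false]
  cases f4 : Nat.beq (Nat.mod c 8) 4 with
  | true =>
    rw [f4, cond_true] at hc
    rw [cond_true]
    obtain ⟨k1, hc⟩ := bd hc
    obtain ⟨k2, hc⟩ := bd hc
    obtain ⟨k3, hc⟩ := bd hc
    obtain ⟨k4, hc⟩ := bd hc
    obtain ⟨k5, k6⟩ := bd hc
    rw [g5f_eq (blt_lt k1) (blt_lt k2) (blt_lt k3) (blt_lt k4)]
    exact lift (sat5 (blt_lt k1) (blt_lt k2) (blt_lt k3) (blt_lt k4) (blt_lt k5)
      (lkf_sound (blt_lt k2) (blt_lt k3) (blt_lt k4) k6))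
      (g5_lt (blt_lt k1) (blt_lt k2) (blt_lt k3) (blt_lt k4))
  | false =>
    rw [f4, f3, f2, f1, f7, cond_false, cond_false, cond_false, cond_false, cond_false] at hc
    cases hc

end SY3.E8
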