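import Pool.Agent.SY3.Asm
import Pool.Agent.SY8.Sound
import Pool.Agent.E8K.Lab

/-!
# Eight members with labels, from the exact model
-/

set_option autoImplicit false

namespace SY3.E8

open BS9 N8S

/-- extension to the natural numbers -/
def ext8 (W : Fin 8 → Fin 4 → ℝ) (i : ℕ) : Fin 4 → ℝ := W (Fin.ofNat 8 i)

theorem ofNat8 {i j : ℕ} (hi : i < 8) (hj : j < 8) (h : Fin.ofNat 8 i = Fin.ofNat 8 j) :
    i = j := by
  have := congrArg Fin.val h
  simpa [Nat.mod_eq_of_lt hi, Nat.mod_eq_of_lt hj] using this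

theorem hyp8 {W : Fin 8 → Fin 4 → ℝ} (h : C1S.Clique W) : Hyp 8 (ext8 W) := by
  refine ⟨fun i _ => h.1 _, ?_, ?_⟩
  · intro s hs hs9 c hc i j hi hj
    have hinj : Function.Injective fun k : Fin 5 => Fin.ofNat 8 (s k) := fun a b hab =>
      hs (ofNat8 (hs9 a) (hs9 b) hab)
    exact clique_rel2 (clique_comp h _ hinj) hc hi hj
  · intro s hs hs9 i j hij h1 h2
    have hinj : Function.Injective fun k : Fin 5 => Fin.ofNat 8 (s k) := fun a b hab =>
      hs (ofNat8 (hs9 a) (hs9 b) hab)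
    have key : ∀ i : Fin 5, (C1S.mat W (fun r => (fun k : Fin 5 => Fin.ofNat 8 (s k))
        (i.succAbove r))).det = XK (fun k => ext8 W (s (Fin.ofNat 5 k))) i := by
      intro i
      rw [mat_det4]
      fin_cases i <;> rfl
    exact C1S.two_zero h _ hinj (ne_of_lt hij) ((key i).trans h1) ((key j).trans h2)

/-- The certificate from a refutation of the exact model with the tightness of the labels. -/
theorem cert_of (refut : ∀ val : ℕ → Bool,
    (∀ g, SY8.valid8 g = true → ∃ p ∈ SY8.gen8 g, val p.1 = p.2) → False) : E8K.Cert := by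
  intro W hW f hf
  by_contra hno
  have hcl : C1S.Clique W := ⟨hW, fun i j hij => ⟨f i j, hf i j hij⟩⟩
  obtain ⟨p, hp⟩ := exists_sorted_weak (m := 4) W hW
  have hpi : Function.Injective p := p.injective
  have hsort : Sorted8 (ext8 (W ∘ p)) := by
    intro i j hi hij hj
    have h1 := hp (Fin.ofNat 8 i) (Fin.ofNat 8 j) (by
        rw [Fin.le_def]
        simp only [Fin.val_ofNat, Nat.mod_eq_of_lt (show i < 8 by omega)]
        exact hi) (by
        rw [Fin.lt_def]
        simp only [Fin.val_ofNat, Nat.mod_eq_of_lt (show i < 8 by omega), Nat.mod_eq_of_lt hj]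
        exact hij)
    rw [mat_det4] at h1
    exact h1
  have hyp : Hyp 8 (ext8 (W ∘ p)) := hyp8 (clique_comp hcl p hpi)
  have hne : ∀ {a b : ℕ}, a < 8 → b < 8 → a ≠ b → p (Fin.ofNat 8 a) ≠ p (Fin.ofNat 8 b) :=
    fun ha hb hab h => hab (ofNat8 ha hb (hpi h))
  have hlab : Lab (ext8 (W ∘ p)) fun i j => f (p (Fin.ofNat 8 i)) (p (Fin.ofNat 8 j)) := by
    intro i j hij hj
    obtain ⟨h1, h2, h3⟩ := hf _ _ (hne (hij.trans hj) hj hij.ne)
    exact ⟨h1, h2, fun k _ => h3 _⟩
  have hno43 : No43 (ext8 (W ∘ p)) fun i j => f (p (Fin.ofNat 8 i)) (p (Fin.ofNat 8 j)) := by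
    intro i j k1 k2 k3 k4 k5 s hij hj h12 h23 h3 h45 h5 hnd hs e1 e2 e3 e4 e5
    have hi : i < 8 := hij.trans hj
    have h2 : k2 < 8 := h23.trans h3
    have h1 : k1 < 8 := h12.trans h2
    have h4 : k4 < 8 := h45.trans h5
    simp only [List.nodup_cons, List.mem_cons, List.not_mem_nil, or_false, not_or] at hnd
    obtain ⟨⟨-, i1, i2, i3, i4, i5⟩, ⟨j1, j2, j3, j4, j5⟩, -⟩ := hnd
    have hij' := hne hi hj hij.ne
    obtain ⟨l1, l2, -⟩ := hf _ _ hij'
    apply hno
    refine ⟨p (Fin.ofNat 8 i), p (Fin.ofNat 8 j), hij', ?_⟩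
    have c4 : ∀ a b c d : Fin 8, a ≠ b → a ≠ c → a ≠ d → b ≠ c → b ≠ d → c ≠ d →
        ({a, b, c, d} : Finset (Fin 8)).card = 4 := by
      intro a b c d h1 h2 h3 h4 h5 h6
      rw [Finset.card_insert_of_notMem (by simp [h1, h2, h3]),
        Finset.card_insert_of_notMem (by simp [h4, h5]), Finset.card_pair h6]
    have c3 : ∀ a b c : Fin 8, a ≠ b → a ≠ c → b ≠ c →
        ({a, b, c} : Finset (Fin 8)).card = 3 := by
      intro a b c h1 h2 h3
      rw [Finset.card_insert_of_notMem (by simp [h1, h2]), Finset.card_pair h3]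
    obtain rfl | rfl : s = 0 ∨ s = 1 := by omega
    · refine ⟨{p (Fin.ofNat 8 i), p (Fin.ofNat 8 k1), p (Fin.ofNat 8 k2), p (Fin.ofNat 8 k3)},
        {p (Fin.ofNat 8 j), p (Fin.ofNat 8 k4), p (Fin.ofNat 8 k5)},
        c4 _ _ _ _ (hne hi h1 i1) (hne hi h2 i2) (hne hi h3 i3) (hne h1 h2 h12.ne)
          (hne h1 h3 (h12.trans h23).ne) (hne h2 h3 h23.ne),
        c3 _ _ _ (hne hj h4 j4) (hne hj h5 j5) (hne h4 h5 h45.ne), Or.inl ⟨?_, ?_⟩⟩
      · intro k hk
        simp only [Finset.mem_insert, Finset.mem_singleton] at hk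
        rcases hk with rfl | rfl | rfl | rfl
        exacts [l1, e1, e2, e3]
      · intro k hk
        simp only [Finset.mem_insert, Finset.mem_singleton] at hk
        rcases hk with rfl | rfl | rfl
        exacts [l2, e4, e5]
    · refine ⟨{p (Fin.ofNat 8 j), p (Fin.ofNat 8 k1), p (Fin.ofNat 8 k2), p (Fin.ofNat 8 k3)},
        {p (Fin.ofNat 8 i), p (Fin.ofNat 8 k4), p (Fin.ofNat 8 k5)},
        c4 _ _ _ _ (hne hj h1 j1) (hne hj h2 j2) (hne hj h3 j3) (hne h1 h2 h12.ne)
          (hne h1 h3 (h12.trans h23).ne) (hne h2 h3 h23.ne),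
        c3 _ _ _ (hne hi h4 i4) (hne hi h5 i5) (hne h4 h5 h45.ne), Or.inr ⟨?_, ?_⟩⟩
      · intro k hk
        simp only [Finset.mem_insert, Finset.mem_singleton] at hk
        rcases hk with rfl | rfl | rfl | rfl
        exacts [l2, e1, e2, e3]
      · intro k hk
        simp only [Finset.mem_insert, Finset.mem_singleton] at hk
        have n1 : ∀ x : ℝ, x = -vs 1 → x = 1 := fun x hx => by rw [hx]; norm_num [vs]
        rcases hk with rfl | rfl | rfl
        exacts [l1, n1 _ e4, n1 _ e5]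
  exact refut _ fun g hg => gen8_sound hyp hsort hlab hno43 g hg

end SY3.E8
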